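import Pool.Agent.K7.H47.BE.Main
import Pool.Agent.K7.H47.BE.Nuc

/-!
# MP_5f80dd_lc, Q1: bi-embeddability of nuclear simple separable C*-algebras is complete analytic

`H` is an arbitrary separable infinite dimensional complex Hilbert space, `Γ(H) = B(H)^ℕ` is the
space of sequences of bounded operators with the product of the Borel structures of the weak
operator topology, and `γ ∈ Γ(H)` codes the C*-algebra `C*(γ)` generated by the entries of `γ`.

Idea of the proof. An analytic quasi-order `R` is coded by labelled trees `Λ x` on `List ℤ` such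
that `R x y` holds if and only if there is a map of the trees which respects levels, parents and
labels, and then there is an automorphism of the tree which does so. A labelled tree gives a simple
dimension group `G` with the strict order given by the evaluations at its vertices and labels: a
vertex `v` gives one generator with values `1 + 1_{[v]}` (`[v]` is the set of the descendants of
`v`) and, if `v` is not the root, one generator with values `2 + 1_{[v]} + 1_{[parent of v]}`, and
the coefficients of a generator `i` are in `ℤ[1/2, 1/q i]` for a prime `q i` which depends on the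
type of `i` only. The differences of the generators of the second kind and of sums of two
generators of the first kind are infinitesimals, so that a strictly positive homomorphism of these
groups respects the parents and gives a map of the trees; divisibility takes care of the types. The
group `G` is the `K₀`-group of an AF algebra given by a Bratteli diagram which is computed stage by
stage from finite parts of the labelled tree (using approximation of real matrices by unimodular
dyadic ones). Homomorphisms of the groups are lifted to embeddings by an intertwining of the path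
models.
-/

set_option autoImplicit false

open scoped InnerProductSpace ComplexOrder Matrix

namespace Pool.Agent.Results.MP_5f80dd_lc.SimpleNuclear

universe u v

section defs

variable {A : Type v} [CStarAlgebra A]

/-- The C*-algebra `C*(γ)` generated by the entries of a sequence `γ` in a C*-algebra `A` (below,
`A = B(H)`): the norm closure of the (not necessarily unital) *-algebra generated by them. -/
noncomputable def CStar (γ : ℕ → A) : Set A :=
  closure (NonUnitalStarAlgebra.adjoin ℂ (Set.range γ))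

/-- `C*(γ)` embeds into `C*(δ)`: there is an injective *-homomorphism `φ : C*(γ) → C*(δ)` (the
values of `φ` outside of `C*(γ)` are irrelevant). -/
def Embeds (γ δ : ℕ → A) : Prop :=
  ∃ φ : A → A, Set.MapsTo φ (CStar γ) (CStar δ) ∧ Set.InjOn φ (CStar γ) ∧
    ∀ a ∈ CStar γ, ∀ b ∈ CStar γ, ∀ c : ℂ,
      φ (a + b) = φ a + φ b ∧ φ (a * b) = φ a * φ b ∧
        φ (star a) = star (φ a) ∧ φ (c • a) = c • φ a

/-- There is an injective *-homomorphism `φ : C*(γ) → C*(δ)` with `φ 1 = 1` (used only for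
algebras which contain the unit `1` of `A`). -/
def EmbedsUnitally (γ δ : ℕ → A) : Prop :=
  ∃ φ : A → A, Set.MapsTo φ (CStar γ) (CStar δ) ∧ Set.InjOn φ (CStar γ) ∧
    (∀ a ∈ CStar γ, ∀ b ∈ CStar γ, ∀ c : ℂ,
      φ (a + b) = φ a + φ b ∧ φ (a * b) = φ a * φ b ∧
        φ (star a) = star (φ a) ∧ φ (c • a) = c • φ a) ∧ φ 1 = 1

/-- `C*(γ)` and `C*(δ)` are bi-embeddable. -/
def BiEmbeddable (γ δ : ℕ → A) : Prop := Embeds γ δ ∧ Embeds δ γ

/-- `C*(γ)` is an AF algebra: it is the closure of the union of an increasing sequence of finite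
dimensional *-subalgebras. -/
def IsAF (γ : ℕ → A) : Prop :=
  ∃ N : ℕ → NonUnitalStarSubalgebra ℂ A, Monotone N ∧
    (∀ n, FiniteDimensional ℂ (N n).toSubmodule) ∧ CStar γ = closure (⋃ n, (N n : Set A))

/-- `C*(γ)` is simple: it is not zero and its only closed two-sided ideals are zero and itself. -/
def IsSimple (γ : ℕ → A) : Prop :=
  (∃ a ∈ CStar γ, a ≠ 0) ∧
    ∀ J : Submodule ℂ A, IsClosed (J : Set A) → (J : Set A) ⊆ CStar γ →
      (∀ a ∈ CStar γ, ∀ x ∈ J, a * x ∈ J ∧ x * a ∈ J) → J = ⊥ ∨ (J : Set A) = CStar γ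

end defs

section nuclear

variable {H : Type v} [NormedAddCommGroup H] [InnerProductSpace ℂ H] [CompleteSpace H]

/-- A linear map into the `n × n` matrices is completely positive on the C*-algebra `C` of
operators: `∑ᵢⱼ ⟨vᵢ, φ(aᵢ* aⱼ) vⱼ⟩ ≥ 0` for all `aᵢ ∈ C` and all vectors `vᵢ`. -/
def CPTo (C : Set (H →L[ℂ] H)) {n : ℕ} (φ : (H →L[ℂ] H) →ₗ[ℂ] Matrix (Fin n) (Fin n) ℂ) : Prop :=
  ∀ (k : ℕ) (a : Fin k → (H →L[ℂ] H)) (w : Fin k → Fin n → ℂ), (∀ i, a i ∈ C) →
    0 ≤ ∑ i, ∑ j, star (w i) ⬝ᵥ (φ (star (a i) * a j)).mulVec (w j)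

/-- A linear map from the `n × n` matrices to the operators is completely positive:
`∑ᵢⱼ ⟨ξᵢ, ψ(Xᵢ* Xⱼ) ξⱼ⟩ ≥ 0` for all matrices `Xᵢ` and all vectors `ξᵢ`. -/
def CPFrom {n : ℕ} (ψ : Matrix (Fin n) (Fin n) ℂ →ₗ[ℂ] (H →L[ℂ] H)) : Prop :=
  ∀ (k : ℕ) (X : Fin k → Matrix (Fin n) (Fin n) ℂ) (ξ : Fin k → H),
    0 ≤ ∑ i, ∑ j, ⟪ξ i, ψ ((X i)ᴴ * X j) (ξ j)⟫_ℂ

/-- `C*(γ)` is nuclear, for a C*-algebra `C*(γ)` of operators which contains the identity: the
identity map of `C*(γ)` can be approximated, on finite sets, by compositions of unital completely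
positive maps `C*(γ) → M_n(ℂ) → C*(γ)` (the values of the first map outside of `C*(γ)` are
irrelevant). -/
def IsNuclear (γ : ℕ → (H →L[ℂ] H)) : Prop :=
  ∀ S : Finset (H →L[ℂ] H), (∀ a ∈ S, a ∈ CStar γ) → ∀ ε : ℝ, 0 < ε →
    ∃ (n : ℕ) (φ : (H →L[ℂ] H) →ₗ[ℂ] Matrix (Fin n) (Fin n) ℂ)
      (ψ : Matrix (Fin n) (Fin n) ℂ →ₗ[ℂ] (H →L[ℂ] H)),
      CPTo (CStar γ) φ ∧ φ 1 = 1 ∧ CPFrom ψ ∧ ψ 1 = 1 ∧ (∀ X, ψ X ∈ CStar γ) ∧
        ∀ a ∈ S, ‖ψ (φ a) - a‖ < ε

end nuclear

section borel

variable {H : Type v} [NormedAddCommGroup H] [InnerProductSpace ℂ H] [CompleteSpace H]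

/-- The Borel structure of the weak operator topology on `B(H)`. -/
noncomputable def wotBorel : MeasurableSpace (H →L[ℂ] H) :=
  @borel (H →L[ℂ] H)
    (TopologicalSpace.induced (fun (T : H →L[ℂ] H) (q : H × H) => ⟪q.1, T q.2⟫_ℂ) inferInstance)

/-- A map into `Γ(H) = B(H)^ℕ` is Borel (for the product of the Borel structures of the weak
operator topology). -/
def BorelMap {X : Type u} [MeasurableSpace X] (f : X → ℕ → (H →L[ℂ] H)) : Prop :=
  @Measurable X (ℕ → (H →L[ℂ] H)) _ (@MeasurableSpace.pi ℕ _ fun _ => wotBorel) f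

end borel

/-- A relation on a standard Borel space is analytic: it is the projection of a Borel subset of
`X × X × ℕ^ℕ`. -/
def Analytic {X : Type u} [MeasurableSpace X] (R : X → X → Prop) : Prop :=
  ∃ B : Set ((X × X) × (ℕ → ℕ)), MeasurableSet B ∧ ∀ x y, R x y ↔ ∃ w, ((x, y), w) ∈ B

/-- **Bi-embeddability of unital nuclear simple separable C*-algebras (even of unital simple AF
algebras) is a complete analytic equivalence relation.**
Let `H` be a separable infinite dimensional Hilbert space and let `R` be an analytic quasi-order on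
a standard Borel space `X`. There is a Borel map `f : X → Γ(H)` such that all the C*-algebras
`C*(f x)` are unital, AF, nuclear and simple and `R x y` holds if and only if `C*(f x)` embeds into
`C*(f y)`, if and only if it embeds unitally. Consequently, if `R` is an analytic equivalence
relation, then `f` is a Borel reduction of `R` to bi-embeddability on the codes of nuclear simple
separable C*-algebras. -/
theorem result (H : Type v) [NormedAddCommGroup H] [InnerProductSpace ℂ H] [CompleteSpace H]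
    [TopologicalSpace.SeparableSpace H] (hH : ¬ FiniteDimensional ℂ H)
    (X : Type u) [MeasurableSpace X] [StandardBorelSpace X] (R : X → X → Prop)
    (hrefl : ∀ x, R x x) (htrans : ∀ x y z, R x y → R y z → R x z) (hR : Analytic R) :
    ∃ f : X → ℕ → (H →L[ℂ] H), BorelMap f ∧
      (∀ x, (1 : H →L[ℂ] H) ∈ CStar (f x) ∧ IsAF (f x) ∧ IsNuclear (f x) ∧ IsSimple (f x)) ∧
      (∀ x y, R x y ↔ Embeds (f x) (f y)) ∧
      (∀ x y, R x y ↔ EmbedsUnitally (f x) (f y)) ∧
      (Equivalence R → ∀ x y, R x y ↔ BiEmbeddable (f x) (f y)) := by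
  classical
  obtain ⟨b, f, D, h1, h2, h3, h4, h5⟩ := K7.H47.BE.main hH wotBorel R hrefl htrans hR
  have hC : ∀ x, CStar (f x) = K7.H47.BE.AL (D x) b := h2
  have hmem : ∀ x a, a ∈ CStar (f x) ↔ a ∈ K7.H47.BE.ALs (D x) b := by
    intro x a
    rw [hC]
    exact Iff.rfl
  have hone : ∀ x, (1 : H →L[ℂ] H) ∈ CStar (f x) := fun x => (hmem x 1).2 (one_mem _)
  have hU : ∀ x y, R x y → EmbedsUnitally (f x) (f y) := by
    intro x y h
    obtain ⟨φ, hφ, hφ2, hφ3⟩ := h4 x y h
    let ψ : (H →L[ℂ] H) → (H →L[ℂ] H) := fun a =>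
      if h : a ∈ K7.H47.BE.ALs (D x) b then φ ⟨a, h⟩ else 0
    have hψ : ∀ (a : H →L[ℂ] H) (h : a ∈ K7.H47.BE.ALs (D x) b), ψ a = φ ⟨a, h⟩ :=
      fun a h => dif_pos h
    refine ⟨ψ, ?_, ?_, ?_, ?_⟩
    · intro a ha
      rw [hψ a ((hmem x a).1 ha), hC]
      exact hφ2 _
    · intro a ha a' ha' haa
      rw [hψ a ((hmem x a).1 ha), hψ a' ((hmem x a').1 ha')] at haa
      exact congrArg Subtype.val (hφ haa)
    · intro a ha a' ha' c
      have ga := (hmem x a).1 ha
      have ga' := (hmem x a').1 ha'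
      refine ⟨?_, ?_, ?_, ?_⟩
      · rw [hψ _ (add_mem ga ga'), hψ a ga, hψ a' ga']
        exact map_add φ ⟨a, ga⟩ ⟨a', ga'⟩
      · rw [hψ _ (mul_mem ga ga'), hψ a ga, hψ a' ga']
        exact map_mul φ ⟨a, ga⟩ ⟨a', ga'⟩
      · rw [hψ _ (star_mem ga), hψ a ga]
        exact φ.map_star' ⟨a, ga⟩
      · rw [hψ _ (SMulMemClass.smul_mem c ga), hψ a ga]
        exact map_smul φ c ⟨a, ga⟩
    · rw [hψ 1 (one_mem _)]
      exact hφ3
  have hE : ∀ x y, Embeds (f x) (f y) → R x y := by
    rintro x y ⟨φ, g1, g2, g3⟩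
    apply h5 x y
    refine ⟨{ toFun := fun a => φ a.1, map_smul' := ?_, map_zero' := ?_,
              map_add' := ?_, map_mul' := ?_, map_star' := ?_ }, ?_, ?_⟩
    · intro c a
      exact (g3 a.1 ((hmem x _).2 a.2) a.1 ((hmem x _).2 a.2) c).2.2.2
    · have h := (g3 0 ((hmem x _).2 (zero_mem _)) 0 ((hmem x _).2 (zero_mem _)) 0).1
      change φ 0 = 0
      simpa using h
    · intro a a'
      exact (g3 a.1 ((hmem x _).2 a.2) a'.1 ((hmem x _).2 a'.2) 0).1
    · intro a a'
      exact (g3 a.1 ((hmem x _).2 a.2) a'.1 ((hmem x _).2 a'.2) 0).2.1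
    · intro a
      exact (g3 a.1 ((hmem x _).2 a.2) a.1 ((hmem x _).2 a.2) 0).2.2.1
    · intro a a' h
      exact Subtype.ext (g2 ((hmem x _).2 a.2) ((hmem x _).2 a'.2) h)
    · intro a
      rw [← hC]
      exact g1 ((hmem x _).2 a.2)
  have hUE : ∀ x y, EmbedsUnitally (f x) (f y) → Embeds (f x) (f y) := by
    rintro x y ⟨φ, g1, g2, g3, -⟩
    exact ⟨φ, g1, g2, g3⟩
  have hiff : ∀ x y, R x y ↔ Embeds (f x) (f y) := fun x y =>
    ⟨fun h => hUE x y (hU x y h), hE x y⟩
  refine ⟨f, h1, fun x => ⟨hone x, ?_, ?_, ?_⟩, hiff,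
    fun x y => ⟨hU x y, fun h => hE x y (hUE x y h)⟩,
    fun hR' x y => ⟨fun h => ⟨(hiff x y).1 h, (hiff y x).1 (hR'.symm h)⟩, fun h => (hiff x y).2 h.1⟩⟩
  · refine ⟨fun n => (K7.H47.BE.F (D x) b n).toNonUnitalStarSubalgebra,
      fun n m h => K7.H47.BE.F_mono h, fun n => ?_, ?_⟩
    · exact K7.H47.BE.F_finite (D := D x) (b := b) n
    · exact hC x
  · intro S hS ε hε
    obtain ⟨m, hm⟩ := K7.H47.BE.exists_approx (D := D x) (b := b) S
      (fun a ha => by rw [← hC]; exact hS a ha) hε
    refine ⟨_, K7.H47.BE.cp (D x) b m, K7.H47.BE.pc (D x) b m, ?_, K7.H47.BE.cp_one m, ?_,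
      K7.H47.BE.pc_one m, ?_, hm⟩
    · intro k a w _
      exact K7.H47.BE.cp_pos m k a w
    · intro k X ξ
      exact K7.H47.BE.pc_pos m k X ξ
    · intro X
      rw [hC]
      exact K7.H47.BE.pc_mem m X
  · refine ⟨⟨1, hone x, ?_⟩, fun J hJ hJ2 hid => ?_⟩
    · intro h0
      apply hH
      have hsub : Subsingleton H := by
        refine ⟨fun p p' => ?_⟩
        have e1 : (1 : H →L[ℂ] H) p = (1 : H →L[ℂ] H) p' := by rw [h0]; rfl
        exact e1
      infer_instance
    · by_cases hb : J = ⊥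
      · exact Or.inl hb
      · right
        obtain ⟨z, hz, hz0⟩ := J.exists_mem_ne_zero_of_ne_bot hb
        have h1J : (1 : H →L[ℂ] H) ∈ J := by
          refine K7.H47.BE.one_mem_of_ideal (h3 x) hJ (fun a ha => (hmem x a).1 (hJ2 ha))
            (fun a ha a' ha' => hid a ((hmem x a).2 ha) a' ha') hz hz0
        apply Set.Subset.antisymm hJ2
        intro a ha
        have := (hid a ha 1 h1J).1
        rwa [mul_one] at this

end Pool.Agent.Results.MP_5f80dd_lc.SimpleNuclear
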